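import Mathlib

/-!
# MP_325f40_co : regular self 2-distance graphs of odd degree

The icosahedron is a 5-regular graph isomorphic to its own 2-distance graph.
-/

namespace Pool.Agent.Results.MP_325f40_co.Icosahedron

variable {V : Type*}

/-- The 2-distance graph of `G`: distinct vertices are adjacent iff their distance in `G` is `2`.
(Mathlib's `dist` is `0` for vertices in different components.) -/
def twoDist (G : SimpleGraph V) : SimpleGraph V where
  Adj u v := G.dist u v = 2
  symm := ⟨fun u v h => by rw [SimpleGraph.dist_comm]; exact h⟩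
  loopless := ⟨fun u h => by simp at h⟩

/-- `G` is a self 2-distance graph. -/
def SelfTwoDistance (G : SimpleGraph V) : Prop := Nonempty (twoDist G ≃g G)

theorem twoDist_adj (G : SimpleGraph V) (u v : V) :
    (twoDist G).Adj u v ↔ u ≠ v ∧ ¬ G.Adj u v ∧ ∃ w, G.Adj u w ∧ G.Adj w v := by
  constructor
  · intro h
    have h : G.dist u v = 2 := h
    have hne : u ≠ v := by
      rintro rfl
      simp at h
    have hnadj : ¬ G.Adj u v := by
      intro hadj
      have := SimpleGraph.dist_eq_one_iff_adj.mpr hadj
      omega
    refine ⟨hne, hnadj, ?_⟩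
    have hr : G.Reachable u v := by
      by_contra hcon
      rw [SimpleGraph.dist_eq_zero_of_not_reachable hcon] at h
      omega
    obtain ⟨p, hp⟩ := hr.exists_walk_length_eq_dist
    rw [h] at hp
    cases p with
    | nil => simp at hp
    | cons h1 q =>
      cases q with
      | nil => simp at hp
      | cons h2 r =>
        cases r with
        | nil => exact ⟨_, h1, h2⟩
        | cons h3 s => simp at hp
  · rintro ⟨hne, hnadj, w, h1, h2⟩
    show G.dist u v = 2
    have hle : G.dist u v ≤ 2 := by
      have := SimpleGraph.dist_le (SimpleGraph.Walk.cons h1 (SimpleGraph.Walk.cons h2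
        SimpleGraph.Walk.nil))
      simpa using this
    have hr : G.Reachable u v := h1.reachable.trans h2.reachable
    have h0 : G.dist u v ≠ 0 := by
      intro h
      rcases SimpleGraph.dist_eq_zero_iff_eq_or_not_reachable.mp h with h | h
      · exact hne h
      · exact h hr
    have h1' : G.dist u v ≠ 1 := fun h => hnadj (SimpleGraph.dist_eq_one_iff_adj.mp h)
    omega

/-- The neighbours of the vertices of the icosahedron, as bit masks. -/
def masks : Fin 12 → ℕ :=
  ![62, 1125, 203, 405, 809, 1555, 3206, 2380, 2712, 3376, 2658, 1984]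

/-- The graph of the icosahedron. -/
def ico : SimpleGraph (Fin 12) where
  Adj i j := (masks i).testBit j = true
  symm := ⟨by unfold masks; decide +kernel⟩
  loopless := ⟨by unfold masks; decide +kernel⟩

instance : DecidableRel ico.Adj := fun i j => by unfold ico; infer_instance

theorem ico_regular : ico.IsRegularOfDegree 5 := by
  unfold SimpleGraph.IsRegularOfDegree
  decide +kernel

/-- The isomorphism. -/
def φ : Fin 12 → Fin 12 := ![0, 6, 8, 10, 7, 9, 5, 2, 4, 1, 3, 11]

theorem φ_bij : Function.Bijective φ := by
  unfold φ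
  decide +kernel

theorem φ_adj : ∀ i j, (φ i ≠ φ j ∧ ¬ ico.Adj (φ i) (φ j) ∧
    ∃ w, ico.Adj (φ i) w ∧ ico.Adj w (φ j)) ↔ ico.Adj i j := by
  decide +kernel

theorem ico_self : SelfTwoDistance ico := by
  refine ⟨(RelIso.symm ⟨Equiv.ofBijective φ φ_bij, ?_⟩)⟩
  intro i j
  show (twoDist ico).Adj (φ i) (φ j) ↔ ico.Adj i j
  rw [twoDist_adj]
  exact φ_adj i j

/-- The icosahedron is a 5-regular self 2-distance graph, so it is not true that for every odd
`k` no `k`-regular graph is a self 2-distance graph. -/
theorem result :
    (ico.IsRegularOfDegree 5 ∧ SelfTwoDistance ico) ∧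
    ¬ (∀ k : ℕ, Odd k → ∀ (V : Type) [Fintype V] (G : SimpleGraph V) [DecidableRel G.Adj],
      G.IsRegularOfDegree k → ¬ SelfTwoDistance G) := by
  refine ⟨⟨ico_regular, ico_self⟩, ?_⟩
  intro h
  exact h 5 (by decide) (Fin 12) ico ico_regular ico_self

end Pool.Agent.Results.MP_325f40_co.Icosahedron
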